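import Pool.Agent.N909.CL.Def

/-!
# Random Collatz maps, part F2: no repeated positions along block words
-/

set_option autoImplicit false

open Filter Set
open scoped Topology

namespace Pool.Agent.N18.CL.F2

open Pool.Agent.N909.CL Pool.Agent.N909.CM

theorem val_append (n : ℕ) (w v : List Bool) : val n (w ++ v) = val (val n w) v := by
  induction w generalizing n with
  | nil => rfl
  | cons d w ih => exact ih (stp d n)

theorem pos_append (n : ℕ) (w v : List Bool) : pos n (w ++ v) = pos n w ++ pos (val n w) v := by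
  induction w generalizing n with
  | nil => rfl
  | cons d w ih =>
    show n :: pos (stp d n) (w ++ v) = n :: (pos (stp d n) w ++ pos (val (stp d n) w) v)
    rw [ih]

theorem pos_eq (n : ℕ) (w : List Bool) :
    pos n w = (List.range w.length).map (fun i => val n (w.take i)) := by
  induction w generalizing n with
  | nil => rfl
  | cons d w ih =>
    show n :: pos (stp d n) w = _
    rw [ih, List.length_cons, List.range_succ_eq_map, List.map_cons, List.map_map]
    rfl

theorem bd {H : ℝ} (hH : 1 ≤ H) (v : List Bool) (x : ℕ) (h : ∀ p ∈ pos x v, H < (p : ℝ)) :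
    (3 : ℝ) ^ (v.count true) * x * (1 - 1 / H) ^ v.length ≤ 2 ^ v.length * (val x v : ℕ) ∧
      2 ^ v.length * ((val x v : ℕ) : ℝ) ≤ (3 : ℝ) ^ (v.count true) * x *
        (1 + 1 / (3 * H)) ^ v.length := by
  have ha : (0 : ℝ) ≤ 1 - 1 / H := by
    rw [sub_nonneg, div_le_one (by linarith)]
    exact hH
  have ha1 : (1 : ℝ) - 1 / H ≤ 1 := by
    have : (0 : ℝ) ≤ 1 / H := by positivity
    linarith
  have hb1 : (1 : ℝ) ≤ 1 + 1 / (3 * H) := by
    have : (0 : ℝ) ≤ 1 / (3 * H) := by positivity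
    linarith
  induction v generalizing x with
  | nil =>
    show (3 : ℝ) ^ 0 * x * (1 - 1 / H) ^ 0 ≤ 2 ^ 0 * x ∧ 2 ^ 0 * (x : ℝ) ≤ 3 ^ 0 * x * (1 + 1 / (3 * H)) ^ 0
    simp
  | cons d v ih =>
    have hx : H < (x : ℝ) := h x (by show x ∈ x :: pos (stp d x) v; simp)
    obtain ⟨h1, h2⟩ := ih (stp d x) (fun p hp => h p (by
      show p ∈ x :: pos (stp d x) v
      exact List.mem_cons_of_mem _ hp))
    have hx0 : (0 : ℝ) < x := by linarith
    have hxH : (1 : ℝ) ≤ x * (1 / H) := by
      rw [mul_one_div, le_div_iff₀ (by linarith)]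
      linarith
    have hval : val x (d :: v) = val (stp d x) v := rfl
    rw [hval, List.length_cons]
    obtain ⟨y, hy⟩ : ∃ y, y = stp d x := ⟨_, rfl⟩
    rw [← hy] at h1 h2 ⊢
    have hA : (0 : ℝ) ≤ (1 - 1 / H) ^ v.length := by positivity
    have hB : (0 : ℝ) ≤ (1 + 1 / (3 * H)) ^ v.length := by positivity
    have h3c : (0 : ℝ) ≤ 3 ^ (v.count true) := by positivity
    cases d with
    | true =>
      have hy2 : y = (3 * x + 1) / 2 := by rw [hy]; rfl
      have e1 : 3 * x ≤ 2 * y := by omega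
      have e2 : 2 * y ≤ 3 * x + 1 := by omega
      have e1' : (3 : ℝ) * x ≤ 2 * y := by exact_mod_cast e1
      have e2' : (2 : ℝ) * y ≤ 3 * x + 1 := by exact_mod_cast e2
      have e3 : (3 : ℝ) * x + 1 ≤ 3 * x * (1 + 1 / (3 * H)) := by
        have e : (3 : ℝ) * x * (1 + 1 / (3 * H)) = 3 * x + x * (1 / H) := by field_simp
        rw [e]; linarith
      have ec : (true :: v).count true = v.count true + 1 := by simp
      rw [ec]
      constructor
      · calc (3 : ℝ) ^ (v.count true + 1) * x * (1 - 1 / H) ^ (v.length + 1)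
            = (3 ^ (v.count true) * (1 - 1 / H) ^ v.length * (3 * x)) * (1 - 1 / H) := by ring
          _ ≤ (3 ^ (v.count true) * (1 - 1 / H) ^ v.length * (3 * x)) * 1 :=
            mul_le_mul_of_nonneg_left ha1 (by positivity)
          _ ≤ (3 ^ (v.count true) * (1 - 1 / H) ^ v.length) * (2 * y) := by
            rw [mul_one]
            exact mul_le_mul_of_nonneg_left e1' (by positivity)
          _ = 2 * (3 ^ (v.count true) * y * (1 - 1 / H) ^ v.length) := by ring
          _ ≤ 2 * (2 ^ v.length * (val y v : ℕ)) := by linarith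
          _ = _ := by ring
      · calc (2 : ℝ) ^ (v.length + 1) * (val y v : ℕ) = 2 * (2 ^ v.length * (val y v : ℕ)) := by ring
          _ ≤ 2 * (3 ^ (v.count true) * y * (1 + 1 / (3 * H)) ^ v.length) := by linarith
          _ = (3 ^ (v.count true) * (1 + 1 / (3 * H)) ^ v.length) * (2 * y) := by ring
          _ ≤ (3 ^ (v.count true) * (1 + 1 / (3 * H)) ^ v.length) * (3 * x * (1 + 1 / (3 * H))) :=
            mul_le_mul_of_nonneg_left (e2'.trans e3) (by positivity)
          _ = _ := by ring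
    | false =>
      have hy2 : y = x / 2 := by rw [hy]; rfl
      have e1 : x ≤ 2 * y + 1 := by omega
      have e2 : 2 * y ≤ x := by omega
      have e1' : (x : ℝ) ≤ 2 * y + 1 := by exact_mod_cast e1
      have e2' : (2 : ℝ) * y ≤ x := by exact_mod_cast e2
      have e3 : (x : ℝ) * (1 - 1 / H) ≤ 2 * y := by
        have e : (x : ℝ) * (1 - 1 / H) = x - x * (1 / H) := by ring
        rw [e]; linarith
      have ec : (false :: v).count true = v.count true := by simp
      rw [ec]
      constructor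
      · calc (3 : ℝ) ^ (v.count true) * x * (1 - 1 / H) ^ (v.length + 1)
            = (3 ^ (v.count true) * (1 - 1 / H) ^ v.length) * (x * (1 - 1 / H)) := by ring
          _ ≤ (3 ^ (v.count true) * (1 - 1 / H) ^ v.length) * (2 * y) :=
            mul_le_mul_of_nonneg_left e3 (by positivity)
          _ = 2 * (3 ^ (v.count true) * y * (1 - 1 / H) ^ v.length) := by ring
          _ ≤ 2 * (2 ^ v.length * (val y v : ℕ)) := by linarith
          _ = _ := by ring
      · calc (2 : ℝ) ^ (v.length + 1) * (val y v : ℕ) = 2 * (2 ^ v.length * (val y v : ℕ)) := by ring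
          _ ≤ 2 * (3 ^ (v.count true) * y * (1 + 1 / (3 * H)) ^ v.length) := by linarith
          _ = (3 ^ (v.count true) * (1 + 1 / (3 * H)) ^ v.length) * (2 * y) := by ring
          _ ≤ (3 ^ (v.count true) * (1 + 1 / (3 * H)) ^ v.length) * x :=
            mul_le_mul_of_nonneg_left e2' (by positivity)
          _ ≤ ((3 ^ (v.count true) * (1 + 1 / (3 * H)) ^ v.length) * x) * (1 + 1 / (3 * H)) :=
            le_mul_of_one_le_right (by positivity) hb1
          _ = _ := by ring

/-- the two sides for a loop -/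
theorem loop {H : ℝ} (hH : 1 ≤ H) {v : List Bool} {x : ℕ} (h : ∀ p ∈ pos x v, H < (p : ℝ))
    (hv : v ≠ []) (hret : val x v = x) (hl : (v.length : ℝ) ≤ H / 2) :
    (3 : ℝ) ^ (v.count true) ≤ 2 * 2 ^ v.length ∧ (2 : ℝ) ^ v.length ≤ 2 * 3 ^ (v.count true) ∧
      |(2 : ℝ) ^ v.length - 3 ^ (v.count true)| ≤ 3 ^ (v.count true) * (v.length / H) := by
  obtain ⟨h1, h2⟩ := bd hH v x h
  rw [hret] at h1 h2
  obtain ⟨l, hl'⟩ : ∃ l, l = v.length := ⟨_, rfl⟩
  obtain ⟨u, hu'⟩ : ∃ u, u = v.count true := ⟨_, rfl⟩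
  rw [← hl'] at h1 h2 hl ⊢
  rw [← hu'] at h1 h2 ⊢
  have hH0 : (0 : ℝ) < H := by linarith
  have hx : (0 : ℝ) < x := by
    obtain ⟨d, v', rfl⟩ := List.exists_cons_of_ne_nil hv
    have := h x (by show x ∈ x :: pos (stp d x) v'; simp)
    linarith
  have h1' : (3 : ℝ) ^ u * (1 - 1 / H) ^ l ≤ 2 ^ l := by
    have : (3 : ℝ) ^ u * (1 - 1 / H) ^ l * x ≤ 2 ^ l * x := by linarith
    exact le_of_mul_le_mul_right this hx
  have h2' : (2 : ℝ) ^ l ≤ 3 ^ u * (1 + 1 / (3 * H)) ^ l := by
    have : (2 : ℝ) ^ l * x ≤ 3 ^ u * (1 + 1 / (3 * H)) ^ l * x := by linarith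
    exact le_of_mul_le_mul_right this hx
  have hber : 1 - (l : ℝ) / H ≤ (1 - 1 / H) ^ l := by
    have h5 := one_add_mul_le_pow (a := -(1 / H)) (by
      have : 1 / H ≤ 1 := by
        rw [div_le_one hH0]
        exact hH
      linarith) l
    have e : 1 + (l : ℝ) * -(1 / H) = 1 - l / H := by ring
    rw [e] at h5
    rwa [← sub_eq_add_neg] at h5
  have hr : (l : ℝ) / H ≤ 1 / 2 := by
    rw [div_le_iff₀ hH0]
    linarith
  have hr0 : 0 ≤ (l : ℝ) / H := by positivity
  have hexp : (1 + 1 / (3 * H)) ^ l ≤ 1 + l / H := by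
    have h5 : (1 + 1 / (3 * H)) ^ l ≤ Real.exp (l / (3 * H)) := by
      calc (1 + 1 / (3 * H)) ^ l ≤ Real.exp (1 / (3 * H)) ^ l := by
            apply pow_le_pow_left₀ (by positivity)
            have := Real.add_one_le_exp (1 / (3 * H))
            linarith
        _ = Real.exp (l * (1 / (3 * H))) := (Real.exp_nat_mul _ _).symm
        _ = _ := by congr 1; ring
    have h6 : (l : ℝ) / (3 * H) ≤ 1 / 3 := by
      rw [div_le_div_iff₀ (by positivity) (by norm_num)]
      linarith
    have h60 : 0 ≤ (l : ℝ) / (3 * H) := by positivity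
    have h7 := (abs_le.1 (Real.abs_exp_sub_one_sub_id_le (x := (l : ℝ) / (3 * H)) (by
      rw [abs_of_nonneg h60]; linarith))).2
    have h8 : (l : ℝ) / H = 3 * (l / (3 * H)) := by field_simp
    rw [h8]
    nlinarith
  have h3u : (0 : ℝ) < 3 ^ u := by positivity
  have hA := mul_le_mul_of_nonneg_left hber h3u.le
  have hB := mul_le_mul_of_nonneg_left hexp h3u.le
  refine ⟨?_, ?_, ?_⟩
  · nlinarith
  · nlinarith
  · rw [abs_le]
    constructor
    · nlinarith
    · nlinarith

/-- powers with bounded quotient -/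
theorem qbd {b u : ℕ} (hne : 2 ^ b ≠ 3 ^ u) (K : ℝ) : ∃ q₀ : ℕ, ∀ q : ℕ,
    ((2 : ℝ) ^ b) ^ q ≤ K * ((3 : ℝ) ^ u) ^ q → ((3 : ℝ) ^ u) ^ q ≤ K * ((2 : ℝ) ^ b) ^ q → q < q₀ := by
  have gen : ∀ s t : ℝ, 0 < s → s < t → ∃ q₀ : ℕ, ∀ q : ℕ, t ^ q ≤ K * s ^ q → q < q₀ := by
    intro s t hs hst
    have h1 : 1 < t / s := by rw [one_lt_div hs]; exact hst
    obtain ⟨q₀, hq⟩ := ((tendsto_pow_atTop_atTop_of_one_lt h1).eventually_gt_atTop
      K).exists_forall_of_atTop
    refine ⟨q₀, fun q h => ?_⟩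
    by_contra hc
    have h2 := hq q (not_lt.1 hc)
    rw [div_pow, lt_div_iff₀ (pow_pos hs q)] at h2
    linarith
  rcases lt_or_gt_of_ne hne with h | h
  · obtain ⟨q₀, hq⟩ := gen ((2 : ℝ) ^ b) ((3 : ℝ) ^ u) (by positivity) (by exact_mod_cast h)
    exact ⟨q₀, fun q _ h2 => hq q h2⟩
  · obtain ⟨q₀, hq⟩ := gen ((3 : ℝ) ^ u) ((2 : ℝ) ^ b) (by positivity) (by exact_mod_cast h)
    exact ⟨q₀, fun q h1 _ => hq q h1⟩

theorem t (hE : StmE) : StmF2 := by
  intro b u hb hu hne δ C hδ hC
  obtain ⟨q₀, hq₀⟩ := qbd hne (2 * 6 ^ b)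
  obtain ⟨l₀, hl₀⟩ : ∃ l₀ : ℕ, l₀ = b * q₀ + b := ⟨_, rfl⟩
  have hpow : Tendsto (fun X : ℕ => (X : ℝ) ^ δ) atTop atTop :=
    (tendsto_rpow_atTop hδ).comp tendsto_natCast_atTop_atTop
  have hlog : ∀ᶠ X : ℕ in atTop, b * (C * Real.log X) ≤ (X : ℝ) ^ δ / 2 := by
    have h1 := (isLittleO_log_rpow_atTop hδ).bound (show (0 : ℝ) < 1 / (2 * (b * C)) by
      have : (0 : ℝ) < b := by exact_mod_cast hb
      positivity)
    have h2 := tendsto_natCast_atTop_atTop (R := ℝ) |>.eventually h1
    filter_upwards [h2, eventually_ge_atTop 1] with X hX hX1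
    have hb0 : (0 : ℝ) < b := by exact_mod_cast hb
    rw [Real.norm_eq_abs, Real.norm_eq_abs, abs_of_nonneg (Real.rpow_nonneg (Nat.cast_nonneg X) δ)] at hX
    have h3 := (le_abs_self _).trans hX
    have h4 : b * (C * Real.log X) ≤ b * C * (1 / (2 * (b * C)) * (X : ℝ) ^ δ) := by
      rw [← mul_assoc]
      exact mul_le_mul_of_nonneg_left h3 (by positivity)
    refine h4.trans (le_of_eq ?_)
    field_simp
  filter_upwards [hpow.eventually_ge_atTop 1, hlog,
    hpow.eventually_gt_atTop ((3 : ℝ) ^ l₀ * l₀)] with X hX1 hX2 hX3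
  intro J hJ n w hw hpos
  obtain ⟨-, hEw⟩ := hE b u J hb hu
  obtain ⟨hlen, hcnt, -⟩ := hEw w hw
  -- no return
  have key : ∀ i j : ℕ, i < j → j < w.length → val n (w.take i) ≠ val n (w.take j) := by
    intro i j hij hj heq
    obtain ⟨l, rfl⟩ : ∃ l, j = i + l := ⟨j - i, by omega⟩
    have hl : 1 ≤ l := by omega
    obtain ⟨v, hv⟩ : ∃ v, v = (w.drop i).take l := ⟨_, rfl⟩
    have htk : w.take (i + l) = w.take i ++ v := by rw [List.take_add, hv]
    have hvl : v.length = l := by
      rw [hv, List.length_take, List.length_drop]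
      omega
    have hvne : v ≠ [] := by
      intro h0
      rw [h0] at hvl
      simp at hvl
      omega
    rw [htk, val_append] at heq
    have hposv : ∀ p ∈ pos (val n (w.take i)) v, (X : ℝ) ^ δ < (p : ℝ) := by
      intro p hp
      refine hpos p ?_
      have e : w = w.take (i + l) ++ w.drop (i + l) := (List.take_append_drop _ _).symm
      rw [e, htk, pos_append, pos_append]
      simp [hp]
    have hlJ : (l : ℝ) ≤ b * (C * Real.log X) := by
      have h1 : l ≤ b * J := by omega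
      calc (l : ℝ) ≤ b * J := by exact_mod_cast h1
        _ ≤ b * (C * Real.log X) := mul_le_mul_of_nonneg_left hJ (by positivity)
    obtain ⟨g1, g2, g3⟩ := loop hX1 hposv hvne heq.symm (by rw [hvl]; exact hlJ.trans hX2)
    rw [hvl] at g1 g2 g3
    obtain ⟨c, hc⟩ : ∃ c, c = v.count true := ⟨_, rfl⟩
    rw [← hc] at g1 g2 g3
    -- the block structure
    have hci : (w.take (i + l)).count true = (w.take i).count true + c := by
      rw [htk, List.count_append, hc]
    obtain ⟨a1, a2⟩ := hcnt i (by omega)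
    obtain ⟨b1, b2⟩ := hcnt (i + l) (by omega)
    rw [hci] at b1 b2
    obtain ⟨q, hq⟩ : ∃ q, (i + l) / b = i / b + q :=
      ⟨(i + l) / b - i / b, by have := Nat.div_le_div_right (c := b) (show i ≤ i + l by omega); omega⟩
    rw [hq] at b1 b2
    have c1 : c ≤ q * u + u := by nlinarith
    have c2 : q * u ≤ c + u := by nlinarith
    have m1 := Nat.div_add_mod i b
    have m2 := Nat.div_add_mod (i + l) b
    have m3 := Nat.mod_lt i (show b > 0 by omega)
    have m4 := Nat.mod_lt (i + l) (show b > 0 by omega)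
    rw [hq, mul_add] at m2
    have c3 : l ≤ b * q + b := by omega
    have c4 : b * q ≤ l + b := by omega
    have hqlt : q < q₀ := by
      refine hq₀ q ?_ ?_
      · calc ((2 : ℝ) ^ b) ^ q = 2 ^ (b * q) := (pow_mul _ _ _).symm
          _ ≤ 2 ^ (l + b) := pow_le_pow_right₀ (by norm_num) c4
          _ = 2 ^ b * 2 ^ l := by ring
          _ ≤ 2 ^ b * (2 * 3 ^ c) := mul_le_mul_of_nonneg_left g2 (by positivity)
          _ ≤ 2 ^ b * (2 * 3 ^ (q * u + b)) := by
            have : (3 : ℝ) ^ c ≤ 3 ^ (q * u + b) := pow_le_pow_right₀ (by norm_num) (by omega)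
            gcongr
          _ = 2 * 6 ^ b * (3 ^ u) ^ q := by
            rw [← pow_mul, pow_add, mul_comm q u, show (6 : ℝ) = 2 * 3 by norm_num, mul_pow]
            ring
      · calc ((3 : ℝ) ^ u) ^ q = 3 ^ (q * u) := by rw [← pow_mul, mul_comm]
          _ ≤ 3 ^ (c + b) := pow_le_pow_right₀ (by norm_num) (by omega)
          _ = 3 ^ b * 3 ^ c := by ring
          _ ≤ 3 ^ b * (2 * 2 ^ l) := mul_le_mul_of_nonneg_left g1 (by positivity)
          _ ≤ 3 ^ b * (2 * 2 ^ (b * q + b)) := by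
            have : (2 : ℝ) ^ l ≤ 2 ^ (b * q + b) := pow_le_pow_right₀ (by norm_num) c3
            gcongr
          _ = 2 * 6 ^ b * (2 ^ b) ^ q := by
            rw [← pow_mul, pow_add, show (6 : ℝ) = 2 * 3 by norm_num, mul_pow]
            ring
    -- short loops
    have hll : l ≤ l₀ := by
      rw [hl₀]
      have : b * q ≤ b * q₀ := Nat.mul_le_mul_left _ hqlt.le
      omega
    have hcl : c ≤ l := by
      rw [hc, ← hvl]
      exact List.count_le_length
    have hne2 : (2 : ℤ) ^ l ≠ 3 ^ c := by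
      intro he
      have h9 : Even ((2 : ℤ) ^ l) := (Int.even_pow' (by omega)).2 even_two
      rw [he] at h9
      have h10 : Odd ((3 : ℤ) ^ c) := Odd.pow (by decide)
      exact (Int.not_even_iff_odd.2 h10) h9
    have hone : (1 : ℝ) ≤ |(2 : ℝ) ^ l - 3 ^ c| := by
      have h9 : 1 ≤ |(2 : ℤ) ^ l - 3 ^ c| := Int.one_le_abs (sub_ne_zero.2 hne2)
      exact_mod_cast h9
    have h11 : (1 : ℝ) ≤ 3 ^ c * (l / (X : ℝ) ^ δ) := hone.trans g3
    have hXp : (0 : ℝ) < (X : ℝ) ^ δ := by linarith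
    rw [mul_div_assoc', le_div_iff₀ hXp, one_mul] at h11
    have h12 : (3 : ℝ) ^ c * l ≤ 3 ^ l₀ * l₀ := by
      have e1 : (3 : ℝ) ^ c ≤ 3 ^ l₀ := pow_le_pow_right₀ (by norm_num) (by omega)
      have e2 : (l : ℝ) ≤ l₀ := by exact_mod_cast hll
      exact mul_le_mul e1 e2 (by positivity) (by positivity)
    linarith
  rw [pos_eq]
  refine List.Nodup.map_on ?_ List.nodup_range
  intro i hi j hj he
  rw [List.mem_range] at hi hj
  rcases lt_trichotomy i j with h | h | h
  · exact absurd he (key i j h hj)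
  · exact h
  · exact absurd he.symm (key j i h hi)

end Pool.Agent.N18.CL.F2
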